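import Pool.Agent.H78.S.Targets

/-!
Board sgt_modules (MP_9d0bb7_lc), rows SWP and SYM: elements which permute the points of a frame.
-/

set_option autoImplicit false

open Set Pool.Agent.H77.BC Pool.Agent.H78.S
open scoped Pointwise

namespace Pool.Agent.H32.S

/-- SWP: transpositions -/
theorem pf_SWP (hHIJ : T_HIJ) (hRNK : T_RNK) (hIRP : T_IRP) (_hBGA : T_BGA) (_hORB : T_ORB)
    (hSTD : T_STD) : T_SWP := by
  intro M U G S _ _ _ _ n x F i j hij
  have := F.dg
  have := F.ful
  obtain ⟨hC, _, _, hfix, _, _, _, _, _, _, hRH, _, _⟩ := hHIJ U x F i j hij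
  obtain ⟨hIrr, hRk⟩ := hRNK U x F
  set H := HH U G x i j with hH
  have hSD := (hSTD U F.act).1 (Fin (n + 2)) x
  -- the map
  set φ : G → S × S := fun g => (g • x i, g • x j) with hφ
  have hsm : ∀ s : S, DFn U (fun g : G => g • s) := by
    intro s
    exact DFn_comp (g := fun p : G × S => p.1 • p.2) (f := fun g : G => (g, s)) F.act
      (DFn_pair DFn_id (DFn_const s))
  have hφD : DFn U φ := DFn_pair (hsm (x i)) (hsm (x j))
  set L : Subgroup G := H ⊓ St G x {i, j} with hL
  have hLD : U.D (L : Set G) := by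
    rw [hL, Subgroup.coe_inf]
    exact D_inter hC.1 (hSD {i, j})
  have hLle : L ≤ St G x univ := by
    intro g hg l _
    by_cases hli : l = i
    · exact hg.2 l (by rw [hli]; exact mem_insert _ _)
    · by_cases hlj : l = j
      · exact hg.2 l (by rw [hlj]; exact mem_insert_of_mem _ rfl)
      · exact hfix l hli hlj g hg.1
  have hGRC := l_GRC U H L φ hC.1 hLD inf_le_left hφD (by
    intro a ha b hb
    constructor
    · intro h
      have h1 : a • x i = b • x i := congrArg Prod.fst h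
      have h2 : a • x j = b • x j := congrArg Prod.snd h
      refine ⟨H.mul_mem (H.inv_mem ha) hb, ?_⟩
      intro l hl
      rcases hl with rfl | hl
      · rw [mul_smul, ← h1, inv_smul_smul]
      · rw [mem_singleton_iff] at hl
        rw [hl, mul_smul, ← h2, inv_smul_smul]
    · intro h
      have h1 := h.2 i (mem_insert _ _)
      have h2 := h.2 j (mem_insert_of_mem _ rfl)
      rw [mul_smul, inv_smul_eq_iff] at h1 h2
      exact Prod.ext h1.symm h2.symm)
  have hLR : U.R (L : Set G) ≤ U.R (St G x univ : Set G) :=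
    (l_RKA U).mono hLD (hSD univ) ⟨1, L.one_mem⟩ hLle
  have hRu := hRk univ
  rw [Set.ncard_univ, Nat.card_eq_fintype_card, Fintype.card_fin] at hRu
  set O : Set (S × S) := φ '' (H : Set G) with hO
  have hOD : U.D O := DFn_image hφD hC.1
  have hOn : O.Nonempty := ⟨φ 1, mem_image_of_mem φ H.one_mem⟩
  have hOR : 2 * n ≤ U.R O := by
    have e1 : n * (n + 2) = n * n + 2 * n := by ring
    omega
  have hUn : (univ : Set S).Nonempty := hIrr.2.1
  have hPR : U.R ((univ : Set S) ×ˢ (univ : Set S)) = 2 * n := by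
    rw [(l_RKB U).prod hIrr.1 hIrr.1 hUn hUn, F.rk]
    ring
  have hbig : Big U ((univ : Set S) ×ˢ (univ : Set S)) O :=
    ⟨O, hOD, hOn, fun p _ => ⟨mem_univ _, mem_univ _⟩, Subset.rfl, by rw [hPR]; exact hOR⟩
  set O' : Set (S × S) := (fun p : S × S => (p.2, p.1)) '' O with hO'
  have hOD' : U.D O' := DFn_image DFn_swap hOD
  have hOR' : U.R O' = U.R O := (l_RKB U).inj hOD DFn_swap hOn (by
    intro p _ q _ h
    exact Prod.ext (congrArg Prod.snd h) (congrArg Prod.fst h))
  have hbig' : Big U ((univ : Set S) ×ˢ (univ : Set S)) O' :=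
    ⟨O', hOD', hOn.image _, fun p _ => ⟨mem_univ _, mem_univ _⟩, Subset.rfl, by
      rw [hPR, hOR']; exact hOR⟩
  obtain ⟨p, ⟨h, hh, hp⟩, ⟨q, ⟨k, hk, hq⟩, hqp⟩⟩ :=
    (hIRP U univ univ hIrr hIrr).1.2.2 O O' hbig hbig'
  have e1 : h • x i = k • x j := by
    have a1 : p.1 = h • x i := by rw [← hp]
    have a2 : p.1 = k • x j := by
      rw [← hqp, ← hq]
    rw [← a1, a2]
  have e2 : h • x j = k • x i := by
    have a1 : p.2 = h • x j := by rw [← hp]
    have a2 : p.2 = k • x i := by
      rw [← hqp, ← hq]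
    rw [← a1, a2]
  refine ⟨k⁻¹ * h, H.mul_mem (H.inv_mem hk) hh, ?_⟩
  intro l
  by_cases hli : l = i
  · rw [hli, Equiv.swap_apply_left, mul_smul, e1, inv_smul_smul]
  · by_cases hlj : l = j
    · rw [hlj, Equiv.swap_apply_right, mul_smul, e2, inv_smul_smul]
    · rw [Equiv.swap_apply_of_ne_of_ne hli hlj]
      exact hfix l hli hlj _ (H.mul_mem (H.inv_mem hk) hh)

/-- SYM: permutations of the points -/
theorem pf_SYM (hSWP : T_SWP) : T_SYM := by
  intro M U G S _ _ _ _ n x F
  have hmul : ∀ g h : G, ∀ σ τ : Equiv.Perm (Fin (n + 2)), Pm x g σ → Pm x h τ →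
      Pm x (g * h) (σ * τ) := by
    intro g h σ τ hg hh i
    rw [mul_smul, hh i, hg (τ i)]
    rfl
  refine ⟨fun g h σ τ hg hh => ⟨hmul g h σ τ hg hh, ?_⟩, ?_⟩
  · intro i
    rw [inv_smul_eq_iff, hg (σ⁻¹ i)]
    exact congrArg x (σ.apply_symm_apply i).symm
  · intro σ
    induction σ using Equiv.Perm.swap_induction_on with
    | one => exact ⟨1, fun i => one_smul _ _⟩
    | swap_mul f a b hab ih =>
      obtain ⟨g, hg⟩ := ih
      obtain ⟨w, _, hw⟩ := hSWP U x F a b hab
      exact ⟨w * g, hmul w g _ _ hw hg⟩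

end Pool.Agent.H32.S
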